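import Pool.Agent.Helper770.Straight

/-!
# Disjoint unions of `P_M × C_n` are planar

If the vertices of a graph `H` can be placed on concentric circles (circle `R v`, position `θ v`
out of `n`) so that every edge joins neighbours on a circle or equal positions on consecutive
circles, then `H` has a drawing without crossings.
-/

set_option autoImplicit false

namespace Pool.Agent.Q239.Mesh

open Pool.Agent.Helper770.Crossing

/-- the point of the unit circle with angle `2πx` -/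
noncomputable def E (x : ℝ) : ℂ := Complex.exp ((2 * Real.pi * x : ℝ) * Complex.I)

lemma norm_E (x : ℝ) : ‖E x‖ = 1 := Complex.norm_exp_ofReal_mul_I _

lemma E_cont : Continuous E := by unfold E; fun_prop

lemma E_eq {x y : ℝ} (h : E x = E y) : ∃ k : ℤ, x = y + k := by
  unfold E at h
  obtain ⟨k, hk⟩ := Complex.exp_eq_exp_iff_exists_int.mp h
  refine ⟨k, ?_⟩
  have h1 : ((2 * Real.pi * x : ℝ) : ℂ) * Complex.I =
      ((2 * Real.pi * y + k * (2 * Real.pi) : ℝ) : ℂ) * Complex.I := by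
    rw [hk]; push_cast; ring
  have h2 := mul_right_cancel₀ Complex.I_ne_zero h1
  have h3 : 2 * Real.pi * x = 2 * Real.pi * y + k * (2 * Real.pi) := by exact_mod_cast h2
  have hpi := Real.pi_pos
  have h4 : (2 * Real.pi) * (x - y - k) = 0 := by linarith
  rcases mul_eq_zero.mp h4 with h5 | h5
  · linarith
  · linarith

lemma E_add_int (x : ℝ) (k : ℤ) : E (x + k) = E x := by
  unfold E
  rw [Complex.exp_eq_exp_iff_exists_int]
  exact ⟨k, by push_cast; ring⟩

lemma smul_E_eq {r s x y : ℝ} (hr : 0 < r) (hs : 0 < s) (h : (r : ℂ) * E x = (s : ℂ) * E y) :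
    r = s ∧ ∃ k : ℤ, x = y + k := by
  have hn : ‖(r : ℂ) * E x‖ = ‖(s : ℂ) * E y‖ := by rw [h]
  rw [norm_mul, norm_mul, norm_E, norm_E, mul_one, mul_one, Complex.norm_real, Complex.norm_real,
    Real.norm_eq_abs, Real.norm_eq_abs, abs_of_pos hr, abs_of_pos hs] at hn
  subst hn
  refine ⟨rfl, E_eq (mul_left_cancel₀ (a := (r : ℂ)) ?_ h)⟩
  exact_mod_cast hr.ne'

variable {V : Type*}

/-- point at angle position `j + s` on the circle number `r` -/
noncomputable def cyc (n r j : ℕ) (s : ℝ) : ℂ := ((r + 1 : ℝ) : ℂ) * E ((j + s) / n)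

/-- point at distance `s` from circle `r` on the ray number `j` -/
noncomputable def rad (n r j : ℕ) (s : ℝ) : ℂ := ((r + 1 + s : ℝ) : ℂ) * E (j / n)

lemma cyc_cont (n r j : ℕ) : Continuous (cyc n r j) := by
  unfold cyc
  have := E_cont
  fun_prop

lemma rad_cont (n r j : ℕ) : Continuous (rad n r j) := by
  unfold rad
  fun_prop

lemma cyc_zero (n r j : ℕ) : cyc n r j 0 = rad n r j 0 := by simp [cyc, rad]

lemma cyc_one (n r j : ℕ) (hn : 0 < n) : cyc n r j 1 = rad n r ((j + 1) % n) 0 := by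
  unfold cyc rad
  rw [add_zero]
  congr 1
  have hn' : (n : ℝ) ≠ 0 := by exact_mod_cast hn.ne'
  have h := Nat.div_add_mod (j + 1) n
  generalize (j + 1) / n = q at h
  generalize (j + 1) % n = m at h
  have h' : (n : ℝ) * q + m = (j : ℝ) + 1 := by exact_mod_cast h
  have : ((j : ℝ) + 1) / n = (m : ℝ) / n + ((q : ℤ) : ℝ) := by
    rw [← h']; push_cast; field_simp; ring
  rw [this, E_add_int]

lemma rad_one (n r j : ℕ) : rad n r j 1 = rad n (r + 1) j 0 := by
  unfold rad; push_cast; congr 1; ring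

lemma cyc_inj {n r j r' j' : ℕ} (hn : 3 ≤ n) {s s' : ℝ}
    (h : cyc n r j s = cyc n r' j' s') : r = r' ∧ ∃ k : ℤ, (j : ℝ) + s = j' + s' + k * n := by
  unfold cyc at h
  obtain ⟨h1, k, h2⟩ := smul_E_eq (by positivity) (by positivity) h
  refine ⟨by exact_mod_cast (add_right_cancel h1), k, ?_⟩
  have hn' : (n : ℝ) ≠ 0 := by positivity
  field_simp at h2
  linarith

/-- two points with the same parameter range -/
lemma cyc_same {n r j : ℕ} (hn : 3 ≤ n) {s s' : ℝ}
    (hs : 0 ≤ s) (hs1 : s ≤ 1) (hs' : 0 ≤ s') (hs1' : s' ≤ 1)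
    (h : cyc n r j s = cyc n r j s') : s = s' := by
  obtain ⟨-, k, hk⟩ := cyc_inj hn h
  have hn' : (3 : ℝ) ≤ n := by exact_mod_cast hn
  have hk0 : k = 0 := by
    by_contra hne
    rcases lt_or_gt_of_ne hne with h1 | h1
    · have : (k : ℝ) ≤ -1 := by exact_mod_cast (by omega : k ≤ -1)
      nlinarith
    · have : (1 : ℝ) ≤ k := by exact_mod_cast (by omega : 1 ≤ k)
      nlinarith
  subst hk0
  push_cast at hk
  linarith

lemma rad_same {n r j : ℕ} {s s' : ℝ} (hs : 0 ≤ s) (hs' : 0 ≤ s')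
    (h : rad n r j s = rad n r j s') : s = s' := by
  unfold rad at h
  obtain ⟨h1, -⟩ := smul_E_eq (by positivity) (by positivity) h
  linarith

/-- open arcs on circles only meet when they are equal -/
lemma cyc_cyc {n r j r' j' : ℕ} (hn : 3 ≤ n) (hj : j < n) (hj' : j' < n) {s s' : ℝ}
    (hs : 0 < s) (hs1 : s < 1) (hs' : 0 ≤ s') (hs1' : s' < 1)
    (h : cyc n r j s = cyc n r' j' s') : r = r' ∧ j = j' := by
  obtain ⟨h1, k, hk⟩ := cyc_inj hn h
  refine ⟨h1, ?_⟩
  have a1 : (j : ℝ) < n := by exact_mod_cast hj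
  have a2 : (j' : ℝ) < n := by exact_mod_cast hj'
  -- integer parts
  have h2 : ((j : ℤ) - j' - k * n : ℤ) = 0 := by
    have e : (((j : ℤ) - j' - k * n : ℤ) : ℝ) = s' - s := by push_cast; linarith
    have e1 : (-1 : ℝ) < (((j : ℤ) - j' - k * n : ℤ) : ℝ) := by rw [e]; linarith
    have e2 : (((j : ℤ) - j' - k * n : ℤ) : ℝ) < 1 := by rw [e]; linarith
    have e1' : (-1 : ℤ) < (j : ℤ) - j' - k * n := by exact_mod_cast e1
    have e2' : (j : ℤ) - j' - k * n < 1 := by exact_mod_cast e2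
    omega
  have hk0 : k = 0 := by
    by_contra hne
    have hnZ : (3 : ℤ) ≤ n := by exact_mod_cast hn
    have hjZ : (j : ℤ) < n := by exact_mod_cast hj
    have hjZ' : (j' : ℤ) < n := by exact_mod_cast hj'
    rcases lt_or_gt_of_ne hne with h1 | h1
    · nlinarith
    · nlinarith
  subst hk0
  omega

lemma rad_rad {n r j r' j' : ℕ} (hn : 3 ≤ n) (hj : j < n) (hj' : j' < n) {s s' : ℝ}
    (hs : 0 < s) (hs1 : s < 1) (hs' : 0 ≤ s') (hs1' : s' < 1)
    (h : rad n r j s = rad n r' j' s') : r = r' ∧ j = j' := by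
  unfold rad at h
  obtain ⟨h1, k, hk⟩ := smul_E_eq (by positivity) (by positivity) h
  have hr : r = r' := by
    have e1 : ((r : ℤ) - r' : ℤ) = 0 := by
      have e : (((r : ℤ) - r' : ℤ) : ℝ) = s' - s := by push_cast; linarith
      have e1 : (-1 : ℝ) < (((r : ℤ) - r' : ℤ) : ℝ) := by rw [e]; linarith
      have e2 : (((r : ℤ) - r' : ℤ) : ℝ) < 1 := by rw [e]; linarith
      have e1' : (-1 : ℤ) < (r : ℤ) - r' := by exact_mod_cast e1
      have e2' : (r : ℤ) - r' < 1 := by exact_mod_cast e2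
      omega
    omega
  refine ⟨hr, ?_⟩
  have hn' : (n : ℝ) ≠ 0 := by positivity
  have hk' : (j : ℝ) = j' + k * n := by field_simp at hk; linarith
  have hkZ : (j : ℤ) = j' + k * n := by exact_mod_cast hk'
  have hk0 : k = 0 := by
    by_contra hne
    have hnZ : (3 : ℤ) ≤ n := by exact_mod_cast hn
    have hjZ : (j : ℤ) < n := by exact_mod_cast hj
    have hjZ' : (j' : ℤ) < n := by exact_mod_cast hj'
    rcases lt_or_gt_of_ne hne with h1 | h1
    · nlinarith
    · nlinarith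
  subst hk0
  omega

lemma rad_cyc {n r j r' j' : ℕ} {s s' : ℝ} (hs : 0 < s) (hs1 : s < 1)
    (h : rad n r j s = cyc n r' j' s') : False := by
  unfold rad cyc at h
  obtain ⟨h1, -⟩ := smul_E_eq (by positivity) (by positivity) h
  have e : (((r : ℤ) - r' : ℤ) : ℝ) = - s := by push_cast; linarith
  have e1 : (-1 : ℝ) < (((r : ℤ) - r' : ℤ) : ℝ) := by rw [e]; linarith
  have e2 : (((r : ℤ) - r' : ℤ) : ℝ) < 0 := by rw [e]; linarith
  have e1' : (-1 : ℤ) < (r : ℤ) - r' := by exact_mod_cast e1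
  have e2' : (r : ℤ) - r' < 0 := by exact_mod_cast e2
  omega

section main

variable {H : SimpleGraph V} (n : ℕ) (R θ : V → ℕ)

/-- `v` follows `u` on its circle -/
def nxt (u v : V) : Prop := R u = R v ∧ θ v = (θ u + 1) % n

/-- `v` is just outside `u` -/
def up (u v : V) : Prop := θ u = θ v ∧ R v = R u + 1

open Classical in
/-- the arc from `u` to `v` -/
noncomputable def F (u v : V) (t : ℝ) : ℂ :=
  if nxt n R θ u v then cyc n (R u) (θ u) t
  else if nxt n R θ v u then cyc n (R v) (θ v) (1 - t)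
  else if up R θ u v then rad n (R u) (θ u) t
  else rad n (R v) (θ v) (1 - t)

/-- the shape of an arc of an edge -/
lemma F_form (hadj : ∀ u v, H.Adj u v → nxt n R θ u v ∨ nxt n R θ v u ∨ up R θ u v ∨ up R θ v u)
    {u v : V} (h : H.Adj u v) :
    (nxt n R θ u v ∧ ∀ t, F n R θ u v t = cyc n (R u) (θ u) t) ∨
    (nxt n R θ v u ∧ ∀ t, F n R θ u v t = cyc n (R v) (θ v) (1 - t)) ∨
    (up R θ u v ∧ ∀ t, F n R θ u v t = rad n (R u) (θ u) t) ∨
    (up R θ v u ∧ ∀ t, F n R θ u v t = rad n (R v) (θ v) (1 - t)) := by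
  by_cases h1 : nxt n R θ u v
  · exact Or.inl ⟨h1, fun t => by simp [F, h1]⟩
  by_cases h2 : nxt n R θ v u
  · exact Or.inr (Or.inl ⟨h2, fun t => by simp [F, h1, h2]⟩)
  by_cases h3 : up R θ u v
  · exact Or.inr (Or.inr (Or.inl ⟨h3, fun t => by simp [F, h1, h2, h3]⟩))
  · refine Or.inr (Or.inr (Or.inr ⟨?_, fun t => by simp [F, h1, h2, h3]⟩))
    rcases hadj u v h with h' | h' | h' | h'
    · exact absurd h' h1
    · exact absurd h' h2
    · exact absurd h' h3
    · exact h'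

theorem exists_planar (hn : 3 ≤ n) (hθ : ∀ v, θ v < n)
    (hinj : ∀ u v, R u = R v → θ u = θ v → u = v)
    (hadj : ∀ u v, H.Adj u v → nxt n R θ u v ∨ nxt n R θ v u ∨ up R θ u v ∨ up R θ v u) :
    ∃ D : Drawing H, D.crossings = ∅ := by
  classical
  have hn0 : 0 < n := by omega
  have hout : ∀ e ∈ H.edgeSet, H.Adj e.out.1 e.out.2 := by
    intro e he
    have he' : s(e.out.1, e.out.2) = e := e.out_eq
    rw [← SimpleGraph.mem_edgeSet, he']; exact he
  let pos : V → ℂ := fun v => rad n (R v) (θ v) 0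
  have hpos : ∀ u v, pos u = pos v → u = v := by
    intro u v h
    simp only [pos, rad] at h
    obtain ⟨h1, k, hk⟩ := smul_E_eq (by positivity) (by positivity) h
    have hr : R u = R v := by
      have : (R u : ℝ) = R v := by linarith
      exact_mod_cast this
    refine hinj u v hr ?_
    have hn' : (n : ℝ) ≠ 0 := by positivity
    have hk' : (θ u : ℝ) = θ v + k * n := by field_simp at hk; linarith
    have hkZ : (θ u : ℤ) = θ v + k * n := by exact_mod_cast hk'
    have hk0 : k = 0 := by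
      by_contra hne
      have hnZ : (3 : ℤ) ≤ n := by exact_mod_cast hn
      have hjZ : (θ u : ℤ) < n := by exact_mod_cast hθ u
      have hjZ' : (θ v : ℤ) < n := by exact_mod_cast hθ v
      rcases lt_or_gt_of_ne hne with h1 | h1
      · nlinarith
      · nlinarith
    subst hk0
    omega
  -- ends
  have hends : ∀ u v, H.Adj u v → F n R θ u v 0 = pos u ∧ F n R θ u v 1 = pos v := by
    intro u v h
    rcases F_form n R θ hadj h with ⟨h1, h2⟩ | ⟨h1, h2⟩ | ⟨h1, h2⟩ | ⟨h1, h2⟩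
    · rw [h2, h2, cyc_zero, cyc_one n _ _ hn0, ← h1.2, h1.1]
      exact ⟨by simp only [pos, h1.1], rfl⟩
    · rw [h2, h2, sub_zero, sub_self, cyc_zero, cyc_one n _ _ hn0, ← h1.2, h1.1]
      exact ⟨rfl, by simp only [pos, h1.1]⟩
    · rw [h2, h2, rad_one, ← h1.2, h1.1]
      exact ⟨by simp only [pos, h1.1], rfl⟩
    · rw [h2, h2, sub_zero, sub_self, rad_one, ← h1.2, h1.1]
      exact ⟨rfl, by simp only [pos, h1.1]⟩
  have hcont : ∀ u v, H.Adj u v → Continuous (F n R θ u v) := by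
    intro u v h
    have c1 := cyc_cont
    have c2 := rad_cont
    rcases F_form n R θ hadj h with ⟨h1, h2⟩ | ⟨h1, h2⟩ | ⟨h1, h2⟩ | ⟨h1, h2⟩
    · rw [show F n R θ u v = _ from funext h2]; exact c1 _ _ _
    · rw [show F n R θ u v = _ from funext h2]; exact (c1 _ _ _).comp (by fun_prop)
    · rw [show F n R θ u v = _ from funext h2]; exact c2 _ _ _
    · rw [show F n R θ u v = _ from funext h2]; exact (c2 _ _ _).comp (by fun_prop)
  have hinjOn : ∀ u v, H.Adj u v → Set.InjOn (F n R θ u v) (Set.Icc 0 1) := by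
    intro u v h s hs t ht hst
    obtain ⟨hs0, hs1⟩ := hs
    obtain ⟨ht0, ht1⟩ := ht
    rcases F_form n R θ hadj h with ⟨h1, h2⟩ | ⟨h1, h2⟩ | ⟨h1, h2⟩ | ⟨h1, h2⟩
    · rw [h2, h2] at hst; exact cyc_same hn hs0 hs1 ht0 ht1 hst
    · rw [h2, h2] at hst
      have := cyc_same hn (by linarith) (by linarith) (by linarith) (by linarith) hst
      linarith
    · rw [h2, h2] at hst; exact rad_same hs0 ht0 hst
    · rw [h2, h2] at hst
      have := rad_same (by linarith) (by linarith) hst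
      linarith
  -- interior points
  have hint : ∀ u v, H.Adj u v → ∀ t ∈ Set.Ioo (0 : ℝ) 1, ∃ w x : V, s(u, v) = s(w, x) ∧
      ∃ s ∈ Set.Ioo (0 : ℝ) 1, ((nxt n R θ w x ∧ F n R θ u v t = cyc n (R w) (θ w) s) ∨
        (up R θ w x ∧ F n R θ u v t = rad n (R w) (θ w) s)) := by
    intro u v h t ht
    obtain ⟨ht0, ht1⟩ := ht
    rcases F_form n R θ hadj h with ⟨h1, h2⟩ | ⟨h1, h2⟩ | ⟨h1, h2⟩ | ⟨h1, h2⟩
    · exact ⟨u, v, rfl, t, ⟨ht0, ht1⟩, Or.inl ⟨h1, h2 t⟩⟩
    · exact ⟨v, u, Sym2.eq_swap, 1 - t, ⟨by linarith, by linarith⟩, Or.inl ⟨h1, h2 t⟩⟩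
    · exact ⟨u, v, rfl, t, ⟨ht0, ht1⟩, Or.inr ⟨h1, h2 t⟩⟩
    · exact ⟨v, u, Sym2.eq_swap, 1 - t, ⟨by linarith, by linarith⟩, Or.inr ⟨h1, h2 t⟩⟩
  let D : Drawing H :=
    { pos := pos
      pos_injective := fun u v h => hpos u v h
      arc := fun e => F n R θ e.out.1 e.out.2
      arc_continuousOn := fun e he => (hcont _ _ (hout e he)).continuousOn
      arc_injOn := fun e he => hinjOn _ _ (hout e he)
      arc_ends := by
        intro u v huv
        have he : s((s(u, v)).out.1, (s(u, v)).out.2) = s(u, v) := (s(u, v)).out_eq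
        have hh := hends _ _ (hout s(u, v) huv)
        rcases Sym2.eq_iff.mp he with h | h
        · left; rw [h.1, h.2] at hh ⊢; exact hh
        · right; rw [h.1, h.2] at hh ⊢; exact hh
      arc_avoids := by
        intro e he t ht w hw
        obtain ⟨x, y, -, s, ⟨hs0, hs1⟩, h | h⟩ := hint _ _ (hout e he) t ht
        · have h1 : cyc n (R x) (θ x) s = cyc n (R w) (θ w) 0 := by
            rw [← h.2, hw, cyc_zero]
          obtain ⟨-, k, hk⟩ := cyc_inj hn h1
          have e1 : (((θ x : ℤ) - θ w - k * n : ℤ) : ℝ) = - s := by push_cast; linarith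
          have e2 : (-1 : ℝ) < (((θ x : ℤ) - θ w - k * n : ℤ) : ℝ) := by rw [e1]; linarith
          have e3 : (((θ x : ℤ) - θ w - k * n : ℤ) : ℝ) < 0 := by rw [e1]; linarith
          have e2' : (-1 : ℤ) < (θ x : ℤ) - θ w - k * n := by exact_mod_cast e2
          have e3' : (θ x : ℤ) - θ w - k * n < 0 := by exact_mod_cast e3
          omega
        · have h1 : rad n (R x) (θ x) s = cyc n (R w) (θ w) 0 := by
            rw [← h.2, hw, cyc_zero]
          exact rad_cyc hs0 hs1 h1 }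
  refine ⟨D, ?_⟩
  · rw [Set.eq_empty_iff_forall_notMem]
    rintro x ⟨e, he, f, hf, hef, -, ⟨s, hs, hs'⟩, ⟨t, ht, ht'⟩⟩
    have heq : F n R θ e.out.1 e.out.2 s = F n R θ f.out.1 f.out.2 t := hs'.trans ht'.symm
    have he' : s(e.out.1, e.out.2) = e := e.out_eq
    have hf' : s(f.out.1, f.out.2) = f := f.out_eq
    obtain ⟨w, x, hwx, a, ⟨ha0, ha1⟩, h1⟩ := hint _ _ (hout e he) s hs
    obtain ⟨y, z, hyz, b, ⟨hb0, hb1⟩, h2⟩ := hint _ _ (hout f hf) t ht
    rw [he'] at hwx
    rw [hf'] at hyz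
    rcases h1 with ⟨h1, h1'⟩ | ⟨h1, h1'⟩ <;> rcases h2 with ⟨h2, h2'⟩ | ⟨h2, h2'⟩
    · obtain ⟨r1, r2⟩ := cyc_cyc hn (hθ w) (hθ y) ha0 ha1 hb0.le hb1
        (h1'.symm.trans (heq.trans h2'))
      have hwy : w = y := hinj _ _ r1 r2
      have hxz : x = z := hinj _ _ (by rw [← h1.1, ← h2.1, r1]) (by rw [h1.2, h2.2, r2])
      exact hef (by rw [hwx, hyz, hwy, hxz])
    · exact rad_cyc hb0 hb1 (h2'.symm.trans (heq.symm.trans h1'))
    · exact rad_cyc ha0 ha1 (h1'.symm.trans (heq.trans h2'))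
    · obtain ⟨r1, r2⟩ := rad_rad hn (hθ w) (hθ y) ha0 ha1 hb0.le hb1
        (h1'.symm.trans (heq.trans h2'))
      have hwy : w = y := hinj _ _ r1 r2
      have hxz : x = z := hinj _ _ (by rw [h1.2, h2.2, r1]) (by rw [← h1.1, ← h2.1, r2])
      exact hef (by rw [hwx, hyz, hwy, hxz])

end main

end Pool.Agent.Q239.Mesh
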