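import Pool.Agent.Q239.Mesh.Rings

/-!
# `P_m × C_a × C_b × C_c` is biplanar
-/

set_option autoImplicit false

namespace Pool.Agent.Q239.Mesh

open Pool.Agent.Helper770.Crossing SimpleGraph

lemma divmod {m q r q' r' : ℕ} (hr : r < m) (hr' : r' < m) (h : q * m + r = q' * m + r') :
    q = q' ∧ r = r' := by
  rcases lt_trichotomy q q' with hq | hq | hq
  · have h1 := Nat.mul_le_mul_right m (Nat.succ_le_of_lt hq)
    rw [Nat.succ_mul] at h1
    omega
  · subst hq; exact ⟨rfl, by omega⟩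
  · have h1 := Nat.mul_le_mul_right m (Nat.succ_le_of_lt hq)
    rw [Nat.succ_mul] at h1
    omega

lemma sub_val {n : ℕ} {u v : Fin n} (h : (v - u).val = 1) :
    u.val + 1 = v.val ∨ (v.val = 0 ∧ u.val + 1 = n) := by
  rw [Fin.val_sub] at h
  have hu := u.2
  have hv := v.2
  by_cases hlt : n - u.val + v.val < n
  · rw [Nat.mod_eq_of_lt hlt] at h
    omega
  · rw [Nat.mod_eq_sub_mod (by omega)] at h
    rw [Nat.mod_eq_of_lt (by omega)] at h
    omega

lemma cyc_adj {n : ℕ} {u v : Fin n} (h : (cycleGraph n).Adj u v) :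
    (u.val + 1 = v.val ∨ (v.val = 0 ∧ u.val + 1 = n)) ∨
      (v.val + 1 = u.val ∨ (u.val = 0 ∧ v.val + 1 = n)) := by
  rw [cycleGraph_adj'] at h
  rcases h with h | h
  · exact Or.inr (sub_val h)
  · exact Or.inl (sub_val h)

lemma succ_mod {n : ℕ} {u v : Fin n} (h : u.val + 1 = v.val ∨ (v.val = 0 ∧ u.val + 1 = n)) :
    v.val = (u.val + 1) % n := by
  rcases h with h | ⟨h1, h2⟩
  · rw [h, Nat.mod_eq_of_lt v.2]
  · rw [h2, Nat.mod_self, h1]

variable (m a b c : ℕ)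

/-- the vertex set of the mesh -/
abbrev W := ((Fin m × Fin a) × Fin b) × Fin c

/-- the mesh `P_m × C_a × C_b × C_c` -/
abbrev mesh : SimpleGraph (W m a b c) :=
  ((pathGraph m □ cycleGraph a) □ cycleGraph b) □ cycleGraph c

variable {m a b c}

/-- the edges of the first plane -/
def In1 (u v : W m a b c) : Prop :=
  (u.1.1.2 ≠ v.1.1.2) ∨
  (u.1.1.1 ≠ v.1.1.1 ∧
    ¬ ((min u.1.1.1.val v.1.1.1.val) % 2 = 0 ∧ u.1.2.val + 1 = b ∧ v.1.2.val + 1 = b) ∧
    ¬ ((min u.1.1.1.val v.1.1.1.val) % 2 = 1 ∧ u.1.2.val = 0 ∧ v.1.2.val = 0)) ∨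
  (u.1.2.val = 0 ∧ v.1.2.val + 1 = b) ∨ (v.1.2.val = 0 ∧ u.1.2.val + 1 = b)

lemma In1_symm {u v : W m a b c} (h : In1 u v) : In1 v u := by
  unfold In1 at *
  rw [min_comm v.1.1.1.val]
  rcases h with h | h | h | h
  · exact Or.inl h.symm
  · exact Or.inr (Or.inl ⟨h.1.symm, fun h' => h.2.1 ⟨h'.1, h'.2.2, h'.2.1⟩,
      fun h' => h.2.2 ⟨h'.1, h'.2.2, h'.2.1⟩⟩)
  · exact Or.inr (Or.inr (Or.inr h))
  · exact Or.inr (Or.inr (Or.inl h))

/-- first plane -/
def G1 (m a b c : ℕ) : SimpleGraph (W m a b c) where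
  Adj u v := (mesh m a b c).Adj u v ∧ In1 u v
  symm := ⟨fun _ _ h => ⟨h.1.symm, In1_symm h.2⟩⟩
  loopless := ⟨fun _ h => h.1.ne rfl⟩

/-- second plane -/
def G2 (m a b c : ℕ) : SimpleGraph (W m a b c) where
  Adj u v := (mesh m a b c).Adj u v ∧ ¬ In1 u v
  symm := ⟨fun _ _ h => ⟨h.1.symm, fun h' => h.2 (In1_symm h')⟩⟩
  loopless := ⟨fun _ h => h.1.ne rfl⟩

lemma G1_sup_G2 : G1 m a b c ⊔ G2 m a b c = mesh m a b c := by
  ext u v
  rw [sup_adj]
  change (_ ∧ _) ∨ (_ ∧ _) ↔ _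
  by_cases h : In1 u v <;> simp [h]

lemma G1_disj_G2 : Disjoint (G1 m a b c) (G2 m a b c) := by
  rw [disjoint_iff]
  ext u v
  rw [inf_adj, bot_adj]
  change (_ ∧ _) ∧ (_ ∧ _) ↔ _
  by_cases h : In1 u v <;> simp [h]

/-- inner index in the first plane -/
def r1 (m b x1 x3 : ℕ) : ℕ :=
  if x3 = 0 then 2 * x1 + (if x1 % 2 = 0 then 1 else 0)
  else if x3 + 1 = b then 2 * x1 + (if x1 % 2 = 1 then 1 else 0)
  else (x3 + 1) * m + x1

lemma r1_lt {m b x1 x3 : ℕ} (hb : 3 ≤ b) (h1 : x1 < m) (h3 : x3 < b) : r1 m b x1 x3 < b * m := by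
  have hbm := Nat.mul_le_mul_right m hb
  unfold r1
  split_ifs with h h' h'' h'''
  · omega
  · omega
  · omega
  · omega
  · have h4 : x3 + 2 ≤ b := by omega
    have := Nat.mul_le_mul_right m h4
    have e : (x3 + 2) * m = (x3 + 1) * m + m := by ring
    omega

lemma r1_inj {m b x1 x3 y1 y3 : ℕ} (hb : 3 ≤ b) (h1 : x1 < m) (h1' : y1 < m)
    (h : r1 m b x1 x3 = r1 m b y1 y3) : x1 = y1 ∧ x3 = y3 := by
  have big : ∀ x y : ℕ, x ≠ 0 → y < m → 2 * m ≤ (x + 1) * m + y := by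
    intro x y hx hy
    have : 2 ≤ x + 1 := by omega
    have := Nat.mul_le_mul_right m this
    omega
  unfold r1 at h
  by_cases a0 : x3 = 0
  · rw [if_pos a0] at h
    by_cases b0 : y3 = 0
    · rw [if_pos b0] at h
      split_ifs at h <;> omega
    · rw [if_neg b0] at h
      by_cases b1 : y3 + 1 = b
      · rw [if_pos b1] at h
        split_ifs at h <;> omega
      · rw [if_neg b1] at h
        have := big y3 y1 b0 h1'
        split_ifs at h <;> omega
  · rw [if_neg a0] at h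
    by_cases a1 : x3 + 1 = b
    · rw [if_pos a1] at h
      by_cases b0 : y3 = 0
      · rw [if_pos b0] at h
        split_ifs at h <;> omega
      · rw [if_neg b0] at h
        by_cases b1 : y3 + 1 = b
        · rw [if_pos b1] at h
          split_ifs at h <;> omega
        · rw [if_neg b1] at h
          have := big y3 y1 b0 h1'
          split_ifs at h <;> omega
    · rw [if_neg a1] at h
      have hx := big x3 x1 a0 h1
      by_cases b0 : y3 = 0
      · rw [if_pos b0] at h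
        split_ifs at h <;> omega
      · rw [if_neg b0] at h
        by_cases b1 : y3 + 1 = b
        · rw [if_pos b1] at h
          split_ifs at h <;> omega
        · rw [if_neg b1] at h
          obtain ⟨e1, e2⟩ := divmod h1 h1' h
          omega

def R1 (v : W m a b c) : ℕ := v.2.val * (b * m) + r1 m b v.1.1.1.val v.1.2.val

/-- inner index in the second plane -/
def r2 (b x1 x3 : ℕ) : ℕ := if x1 % 2 = 0 then x3 else b - 1 - x3

def R2 (v : W m a b c) : ℕ :=
  (v.1.1.2.val * m + v.1.1.1.val) * b + r2 b v.1.1.1.val v.1.2.val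

lemma r2_lt {b x1 x3 : ℕ} (h3 : x3 < b) : r2 b x1 x3 < b := by
  unfold r2; split_ifs <;> omega

lemma r1_succ {m b x1 x3 : ℕ} (hb : 3 ≤ b) (h1 : ¬ (x1 % 2 = 0 ∧ x3 + 1 = b))
    (h2 : ¬ (x1 % 2 = 1 ∧ x3 = 0)) : r1 m b (x1 + 1) x3 = r1 m b x1 x3 + 1 := by
  unfold r1
  split_ifs <;> omega

lemma r1_wrap {m b x1 x3 : ℕ} (hb : 3 ≤ b) (h3 : x3 + 1 = b) :
    r1 m b x1 x3 = r1 m b x1 0 + 1 ∨ r1 m b x1 0 = r1 m b x1 x3 + 1 := by
  unfold r1
  split_ifs <;> omega

theorem G1_planar (ha : 3 ≤ a) (hb : 3 ≤ b) : ∃ D : Drawing (G1 m a b c), D.crossings = ∅ := by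
  refine exists_planar a R1 (fun v => v.1.1.2.val) ha (fun v => v.1.1.2.2) ?_ ?_
  · intro u v hR hθ
    obtain ⟨⟨⟨u1, u2⟩, u3⟩, u4⟩ := u
    obtain ⟨⟨⟨v1, v2⟩, v3⟩, v4⟩ := v
    simp only [R1] at hR hθ
    obtain ⟨e1, e2⟩ := divmod (r1_lt hb u1.2 u3.2) (r1_lt hb v1.2 v3.2) hR
    obtain ⟨e3, e4⟩ := r1_inj hb u1.2 v1.2 e2
    rw [Fin.ext e1, Fin.ext e3, Fin.ext e4, Fin.ext hθ]
  · intro u v ⟨h, hin⟩
    obtain ⟨⟨⟨u1, u2⟩, u3⟩, u4⟩ := u
    obtain ⟨⟨⟨v1, v2⟩, v3⟩, v4⟩ := v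
    simp only [boxProd_adj, pathGraph_adj] at h
    simp only [In1] at hin
    simp only [nxt, up, R1]
    rcases h with ⟨⟨⟨h, h2⟩ | ⟨h, h1⟩, h3⟩ | ⟨h, h1⟩, h4⟩ | ⟨h, h1⟩
    · subst h2 h3 h4
      right; right
      rcases hin with h5 | ⟨-, h5, h6⟩ | h5 | h5
      · exact absurd rfl h5
      · rcases h with h | h
        · left
          refine ⟨rfl, ?_⟩
          have hmin : min u1.val v1.val = u1.val := by omega
          rw [hmin] at h5 h6
          rw [← h, r1_succ hb (fun h' => h5 ⟨h'.1, h'.2, h'.2⟩) (fun h' => h6 ⟨h'.1, h'.2, h'.2⟩)]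
          omega
        · right
          refine ⟨rfl, ?_⟩
          have hmin : min u1.val v1.val = v1.val := by omega
          rw [hmin] at h5 h6
          rw [← h, r1_succ hb (fun h' => h5 ⟨h'.1, h'.2, h'.2⟩) (fun h' => h6 ⟨h'.1, h'.2, h'.2⟩)]
          omega
      · omega
      · omega
    · subst h1 h3 h4
      rcases cyc_adj h with h' | h'
      · left; exact ⟨rfl, succ_mod h'⟩
      · right; left; exact ⟨rfl, succ_mod h'⟩
    · simp only [Prod.mk.injEq] at h1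
      obtain ⟨e1, e2⟩ := h1
      subst e1 e2 h4
      right; right
      rcases hin with h5 | ⟨h5, -⟩ | ⟨h5, h6⟩ | ⟨h5, h6⟩
      · exact absurd rfl h5
      · exact absurd rfl h5
      · rw [h5]
        rcases r1_wrap (m := m) (x1 := u1.val) hb h6 with h7 | h7
        · left; exact ⟨rfl, by omega⟩
        · right; exact ⟨rfl, by omega⟩
      · rw [h5]
        rcases r1_wrap (m := m) (x1 := u1.val) hb h6 with h7 | h7
        · right; exact ⟨rfl, by omega⟩
        · left; exact ⟨rfl, by omega⟩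
    · simp only [Prod.mk.injEq] at h1
      obtain ⟨⟨e1, e2⟩, e3⟩ := h1
      subst e1 e2 e3
      exfalso
      rcases hin with h5 | ⟨h5, -⟩ | ⟨h5, h6⟩ | ⟨h5, h6⟩
      · exact h5 rfl
      · exact h5 rfl
      · omega
      · omega

theorem G2_planar (hb : 3 ≤ b) (hc : 3 ≤ c) : ∃ D : Drawing (G2 m a b c), D.crossings = ∅ := by
  refine exists_planar c R2 (fun v => v.2.val) hc (fun v => v.2.2) ?_ ?_
  · intro u v hR hθ
    obtain ⟨⟨⟨u1, u2⟩, u3⟩, u4⟩ := u
    obtain ⟨⟨⟨v1, v2⟩, v3⟩, v4⟩ := v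
    simp only [R2] at hR hθ
    obtain ⟨e1, e2⟩ := divmod (r2_lt u3.2) (r2_lt v3.2) hR
    obtain ⟨e3, e4⟩ := divmod u1.2 v1.2 e1
    have e5 : u3.val = v3.val := by
      have h1 := u3.2
      have h2 := v3.2
      rw [e4] at e2
      unfold r2 at e2
      split_ifs at e2 <;> omega
    rw [Fin.ext e3, Fin.ext e4, Fin.ext e5, Fin.ext hθ]
  · intro u v ⟨h, hin⟩
    obtain ⟨⟨⟨u1, u2⟩, u3⟩, u4⟩ := u
    obtain ⟨⟨⟨v1, v2⟩, v3⟩, v4⟩ := v
    simp only [boxProd_adj, pathGraph_adj] at h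
    simp only [In1] at hin
    simp only [nxt, up, R2]
    rcases h with ⟨⟨⟨h, h2⟩ | ⟨h, h1⟩, h3⟩ | ⟨h, h1⟩, h4⟩ | ⟨h, h1⟩
    · subst h2 h3 h4
      right; right
      have h3' := u3.2
      rcases h with h | h
      · left
        refine ⟨rfl, ?_⟩
        have hmin : min u1.val v1.val = u1.val := by omega
        have hne : u1 ≠ v1 := by intro h'; rw [h'] at h; omega
        rw [hmin] at hin
        have hmv : (u1.val % 2 = 0 ∧ u3.val + 1 = b) ∨ (u1.val % 2 = 1 ∧ u3.val = 0) := by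
          by_contra hcon
          exact hin (Or.inr (Or.inl ⟨hne, fun h' => hcon (Or.inl ⟨h'.1, h'.2.1⟩),
            fun h' => hcon (Or.inr ⟨h'.1, h'.2.1⟩)⟩))
        rw [← h]
        have e : (u2.val * m + (u1.val + 1)) * b = (u2.val * m + u1.val) * b + b := by ring
        rw [e]
        unfold r2
        split_ifs <;> omega
      · right
        refine ⟨rfl, ?_⟩
        have hmin : min u1.val v1.val = v1.val := by omega
        have hne : u1 ≠ v1 := by intro h'; rw [h'] at h; omega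
        rw [hmin] at hin
        have hmv : (v1.val % 2 = 0 ∧ u3.val + 1 = b) ∨ (v1.val % 2 = 1 ∧ u3.val = 0) := by
          by_contra hcon
          exact hin (Or.inr (Or.inl ⟨hne, fun h' => hcon (Or.inl ⟨h'.1, h'.2.1⟩),
            fun h' => hcon (Or.inr ⟨h'.1, h'.2.1⟩)⟩))
        rw [← h]
        have e : (u2.val * m + (v1.val + 1)) * b = (u2.val * m + v1.val) * b + b := by ring
        rw [e]
        unfold r2
        split_ifs <;> omega
    · exact absurd (Or.inl h.ne) hin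
    · simp only [Prod.mk.injEq] at h1
      obtain ⟨e1, e2⟩ := h1
      subst e1 e2 h4
      right; right
      have h3 := u3.2
      have h3' := v3.2
      have hw1 : ¬ (u3.val = 0 ∧ v3.val + 1 = b) := fun h' => hin (Or.inr (Or.inr (Or.inl h')))
      have hw2 : ¬ (v3.val = 0 ∧ u3.val + 1 = b) := fun h' => hin (Or.inr (Or.inr (Or.inr h')))
      have hadj : u3.val + 1 = v3.val ∨ v3.val + 1 = u3.val := by
        rcases cyc_adj h with (h' | h') | (h' | h')
        · exact Or.inl h'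
        · exact absurd h' hw2
        · exact Or.inr h'
        · exact absurd h' hw1
      unfold r2
      by_cases hp : u1.val % 2 = 0
      · rw [if_pos hp, if_pos hp]
        rcases hadj with h' | h'
        · left; exact ⟨rfl, by omega⟩
        · right; exact ⟨rfl, by omega⟩
      · rw [if_neg hp, if_neg hp]
        rcases hadj with h' | h'
        · right; exact ⟨rfl, by omega⟩
        · left; exact ⟨rfl, by omega⟩
    · simp only [Prod.mk.injEq] at h1
      obtain ⟨⟨e1, e2⟩, e3⟩ := h1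
      subst e1 e2 e3
      rcases cyc_adj h with h' | h'
      · left; exact ⟨rfl, succ_mod h'⟩
      · right; left; exact ⟨rfl, succ_mod h'⟩

lemma cr_zero {V : Type*} {H : SimpleGraph V} (h : ∃ D : Drawing H, D.crossings = ∅) :
    crossingNumber H = 0 := by
  obtain ⟨D, hD⟩ := h
  have h0 : crossingNumber H ≤ D.crossings.ncard :=
    Nat.sInf_le ⟨D, by rw [hD]; exact Set.finite_empty, rfl⟩
  rw [hD, Set.ncard_empty] at h0
  omega

/-- `P_m × C_a × C_b × C_c` is biplanar. -/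
theorem mesh_biplanar (ha : 3 ≤ a) (hb : 3 ≤ b) (hc : 3 ≤ c) :
    (∃ (H₁ H₂ : SimpleGraph (W m a b c)) (D₁ : Drawing H₁) (D₂ : Drawing H₂),
      H₁ ⊔ H₂ = mesh m a b c ∧ Disjoint H₁ H₂ ∧ D₁.crossings = ∅ ∧ D₂.crossings = ∅) ∧
    biplanarCrossingNumber (mesh m a b c) = 0 := by
  refine ⟨?_, ?_⟩
  · obtain ⟨D₁, h1⟩ := G1_planar (m := m) (a := a) (b := b) (c := c) ha hb
    obtain ⟨D₂, h2⟩ := G2_planar (m := m) (a := a) (b := b) (c := c) hb hc
    exact ⟨_, _, D₁, D₂, G1_sup_G2, G1_disj_G2, h1, h2⟩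
  have h : biplanarCrossingNumber (mesh m a b c) ≤ 0 :=
    Nat.sInf_le ⟨G1 m a b c, G2 m a b c, G1_sup_G2, G1_disj_G2, by
      rw [cr_zero (G1_planar ha hb), cr_zero (G2_planar hb hc)]⟩
  omega

end Pool.Agent.Q239.Mesh
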